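import Mathlib
import Pool.Agent.H.MP_f83094_an.Witt

set_option autoImplicit false

namespace Pool.Agent.Results.MP_f83094_an.NotInjective

open Pool.Agent.H.MP_f83094_an

/-- A finitely generated complex Hopf algebra with a nonzero element killed by every
submultiplicative seminorm. -/
theorem result : ∃ (H : Type) (_ : Ring H) (_ : HopfAlgebra ℂ H),
    Algebra.FiniteType ℂ H ∧ ∃ h : H, h ≠ 0 ∧
      ∀ p : Seminorm ℂ H, (∀ a b, p (a * b) ≤ p a * p b) → p h = 0 :=
  ⟨U, inferInstance, inferInstance, fg, L 1, L_ne, fun p hp => p_L p hp 1⟩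

end Pool.Agent.Results.MP_f83094_an.NotInjective
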